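import Mathlib

set_option autoImplicit false

namespace Pool.Agent.H.MP_1b3da4_an

open Set Filter Topology

abbrev K : Type := Set.Icc (0 : ℝ) 1

abbrev E : Type := C(K, ℝ)

lemma not_fd : ¬ FiniteDimensional ℝ E := fun h => by
  have hi : Function.Injective (Polynomial.toContinuousMapOnAlgHom (Icc (0 : ℝ) 1)).toLinearMap := by
    rw [← LinearMap.ker_eq_bot, LinearMap.ker_eq_bot']
    intro p hp
    refine p.eq_zero_of_infinite_isRoot ((Icc_infinite (show (0 : ℝ) < 1 by norm_num)).mono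
      fun t ht => ?_)
    exact congrArg (fun f : E => f ⟨t, ht⟩) hp
  exact Polynomial.not_finite (FiniteDimensional.of_injective _ hi)

noncomputable def ev (t : K) : E →L[ℝ] ℝ := ContinuousMap.evalCLM ℝ t

noncomputable def p (i : ℕ) : K := ⟨(i : ℝ)⁻¹, by positivity, Nat.cast_inv_le_one i⟩

noncomputable def V : Submodule ℝ (E →L[ℝ] ℝ) :=
  Submodule.span ℝ (range (fun i => ev (TopologicalSpace.denseSeq K i)) ∪ range fun i => ev (p i))

lemma V_sep : TopologicalSpace.IsSeparable (V : Set (E →L[ℝ] ℝ)) :=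
  ((countable_range _).union (countable_range _)).isSeparable.span

lemma V_total (x : E) (hx : x ≠ 0) : ∃ f ∈ V, f x ≠ 0 := by
  by_contra h
  push Not at h
  refine hx (ContinuousMap.ext fun t => congrFun ((TopologicalSpace.denseRange_denseSeq K).equalizer
    x.continuous continuous_const (funext fun i => ?_)) t)
  exact h _ (Submodule.subset_span (Or.inl ⟨i, rfl⟩))

noncomputable def u (k : ℕ) : E := ⟨fun t => max 0 (1 - k * (t : ℝ)), by fun_prop⟩

lemma u_apply (k : ℕ) (t : K) : u k t = max 0 (1 - k * (t : ℝ)) := rfl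

lemma u_abs (k : ℕ) (t : K) : |u k t| ≤ 1 := by
  rw [u_apply, abs_of_nonneg (le_max_left _ _)]
  exact max_le zero_le_one (by nlinarith [t.2.1, Nat.cast_nonneg (α := ℝ) k])

lemma u_norm (k : ℕ) : ‖u k‖ ≤ 1 := (ContinuousMap.norm_le _ zero_le_one).2 (u_abs k)

lemma lim_closed {F : Type} [NormedAddCommGroup F] [NormedSpace ℝ F] {ι : Type} {l : Filter ι}
    {v : ι → F} (hv : ∀ i, ‖v i‖ ≤ 1) (x : F) :
    IsClosed {f : F →L[ℝ] ℝ | Tendsto (fun i => f (v i)) l (𝓝 (f x))} := by
  refine isClosed_of_closure_subset fun f hf => Metric.tendsto_nhds.2 fun ε hε => ?_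
  obtain ⟨g, hg, hd⟩ := Metric.mem_closure_iff.1 hf (ε / (3 * (‖x‖ + 1))) (by positivity)
  filter_upwards [Metric.tendsto_nhds.1 hg (ε / 3) (by positivity)] with i hi
  rw [dist_eq_norm, lt_div_iff₀ (by positivity)] at hd
  rw [Real.dist_eq] at hi ⊢
  have h1 := (f - g).le_opNorm (v i)
  have h2 := (f - g).le_opNorm x
  rw [_root_.sub_apply, Real.norm_eq_abs] at h1 h2
  have h3 := mul_le_mul_of_nonneg_left (hv i) (norm_nonneg (f - g))
  have h4 := mul_nonneg (norm_nonneg (f - g)) (norm_nonneg x)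
  have h5 := norm_nonneg (f - g)
  rw [abs_lt] at hi ⊢
  rw [abs_le] at h1 h2
  constructor <;> nlinarith [hi.1, hi.2, h1.1, h1.2, h2.1, h2.2]

lemma lim_span {F : Type} [NormedAddCommGroup F] [NormedSpace ℝ F] {ι : Type} {l : Filter ι}
    {v : ι → F} (hv : ∀ i, ‖v i‖ ≤ 1) (x : F)
    {h : ℕ → F →L[ℝ] ℝ} (hh : ∀ j, Tendsto (fun i => h j (v i)) l (𝓝 (h j x))) {f : F →L[ℝ] ℝ}
    (hf : f ∈ (Submodule.span ℝ (range h)).topologicalClosure) :
    Tendsto (fun i => f (v i)) l (𝓝 (f x)) := by
  refine closure_minimal (fun g hg => ?_) (lim_closed hv x) hf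
  induction hg using Submodule.span_induction with
  | mem g hg => obtain ⟨j, rfl⟩ := hg; exact hh j
  | zero => exact tendsto_const_nhds
  | add g g' _ _ h1 h2 => exact Tendsto.add h1 h2
  | smul c g _ h1 => exact Tendsto.const_mul c h1

theorem main (z : ℕ → E) (h : ℕ → E →L[ℝ] ℝ) (h1 : ∀ i j, h i (z j) = if i = j then 1 else 0)
    (h2 : ∀ n, ‖z n‖ = 1 ∧ ‖h n‖ = 1)
    (h3 : V ≤ (Submodule.span ℝ (range h)).topologicalClosure) : False := by
  have hp : ∀ i, ev (p i) ∈ (Submodule.span ℝ (range h)).topologicalClosure := fun i =>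
    h3 (Submodule.subset_span (Or.inr ⟨i, rfl⟩))
  have hpt : Tendsto p atTop (𝓝 (p 0)) := by
    rw [tendsto_subtype_rng]
    simpa [p] using tendsto_inv_atTop_nhds_zero_nat (𝕜 := ℝ)
  have a1 := lim_span (l := atTop) (fun n => (h2 n).1.le) 0 (fun j => tendsto_const_nhds.congr' (by
    filter_upwards [eventually_gt_atTop j] with n hn
    rw [h1, if_neg hn.ne, map_zero])) (hp 0)
  rw [map_zero] at a1
  obtain ⟨N, hN⟩ := Metric.tendsto_atTop.1 a1 (1 / 2) (by norm_num)
  have a2 : ∀ n, N ≤ n → ∀ᶠ k in atTop, h n (u k) = 0 := fun n hn => by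
    have b1 : |z n (p 0)| < 1 / 2 := by
      have := hN n hn
      rwa [Real.dist_eq, sub_zero] at this
    obtain ⟨δ, hδ, hd⟩ := Metric.eventually_nhds_iff.1
      ((z n).continuous.abs.continuousAt.eventually (gt_mem_nhds b1))
    filter_upwards [tendsto_natCast_atTop_atTop.eventually (eventually_gt_atTop δ⁻¹)] with k hk
    have b2 : ∀ s : ℝ, |s| ≤ 1 / 2 → h n (z n + s • u k) ≤ 1 := fun s hs => by
      refine (le_abs_self _).trans (((h n).le_opNorm _).trans ?_)
      rw [(h2 n).2, one_mul]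
      refine (ContinuousMap.norm_le _ zero_le_one).2 fun t => ?_
      show |z n t + s * u k t| ≤ 1
      by_cases ht : dist t (p 0) < δ
      · have c1 := hd ht
        have c2 := abs_add_le (z n t) (s * u k t)
        rw [abs_mul] at c2
        nlinarith [u_abs k t, abs_nonneg s, abs_nonneg (u k t)]
      · have c1 : δ ≤ t := by
          rw [Subtype.dist_eq, Real.dist_eq, not_lt] at ht
          simpa [p, abs_of_nonneg t.2.1] using ht
        have c2 : 1 ≤ k * (t : ℝ) := by
          rw [inv_lt_iff_one_lt_mul₀ hδ] at hk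
          nlinarith [Nat.cast_nonneg (α := ℝ) k]
        rw [u_apply, max_eq_left (by linarith), mul_zero, add_zero]
        exact ((z n).norm_coe_le_norm t).trans (h2 n).1.le
    have b3 := b2 (1 / 2) (by norm_num [abs_of_pos])
    have b4 := b2 (-(1 / 2)) (by norm_num [abs_of_pos])
    rw [map_add, map_smul, h1, if_pos rfl, smul_eq_mul] at b3 b4
    linarith
  have hU : (hyperfilter ℕ : Filter ℕ) ≤ atTop := Nat.hyperfilter_le_atTop
  have a3 : ∀ j, ∃ m : ℝ, Tendsto (fun k => h j (u k)) (hyperfilter ℕ) (𝓝 m) := fun j => by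
    obtain ⟨m, -, hm⟩ := (isCompact_Icc (a := (-1 : ℝ)) (b := 1)).ultrafilter_le_nhds
      ((hyperfilter ℕ).map fun k => h j (u k)) (le_principal_iff.2 (mem_map.2
        (Eventually.of_forall fun k => abs_le.1 (((h j).le_opNorm _).trans (by
          rw [(h2 j).2, one_mul]; exact u_norm k)))))
    exact ⟨m, hm⟩
  choose m hm using a3
  set x : E := ∑ n ∈ Finset.range N, m n • z n with hx
  have a4 : ∀ j, Tendsto (fun k => h j (u k)) (hyperfilter ℕ) (𝓝 (h j x)) := fun j => by
    have : h j x = if j < N then m j else 0 := by simp [hx, map_sum, h1]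
    rw [this]
    split_ifs with hj
    · exact hm j
    · exact tendsto_const_nhds.congr' (((a2 j (not_lt.1 hj)).filter_mono hU).mono fun k hk => hk.symm)
  have a5 := fun i => lim_span u_norm x a4 (hp i)
  have a6 : x (p 0) = 1 := tendsto_nhds_unique (a5 0) (tendsto_const_nhds.congr fun k => by
    show 1 = u k (p 0)
    simp [u_apply, p])
  have a7 : ∀ i, 1 ≤ i → x (p i) = 0 := fun i hi =>
    tendsto_nhds_unique (a5 i) (tendsto_const_nhds.congr' (by
      filter_upwards [hU (eventually_ge_atTop i)] with k hk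
      show 0 = u k (p i)
      have hi' : (0 : ℝ) < i := by exact_mod_cast hi
      have hk' : (i : ℝ) ≤ k := by exact_mod_cast hk
      rw [u_apply, max_eq_left]
      show 1 - k * (i : ℝ)⁻¹ ≤ 0
      rw [sub_nonpos, ← div_eq_mul_inv, one_le_div hi']
      exact hk'))
  have a8 := tendsto_nhds_unique ((x.continuous.tendsto _).comp hpt) (tendsto_const_nhds.congr' (by
    filter_upwards [eventually_ge_atTop 1] with i hi using (a7 i hi).symm))
  rw [a6] at a8
  exact one_ne_zero a8

end Pool.Agent.H.MP_1b3da4_an
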